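import Pool.Agent.Helper83.TW.Goals2

set_option autoImplicit false

namespace Helper4.TW

open Complex Set Filter Topology Pool.Agent.Helper83.TW

/-- one variable identity theorem from real points -/
lemma ident1 {h : ℂ → ℂ} {S : Set ℂ} (hS : IsOpen S) (hc : Convex ℝ S)
    (hd : DifferentiableOn ℂ h S) (x0 : ℝ) (hx0 : (x0 : ℂ) ∈ S)
    (hz : ∀ x : ℝ, (x : ℂ) ∈ S → h x = 0) : ∀ z ∈ S, h z = 0 := by
  have han : AnalyticOnNhd ℂ h S := hd.analyticOnNhd hS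
  have hfr : ∃ᶠ z in 𝓝[≠] (x0 : ℂ), h z = 0 := by
    have ht : Tendsto (fun x : ℝ => (x : ℂ)) (𝓝[≠] x0) (𝓝[≠] (x0 : ℂ)) := by
      apply tendsto_nhdsWithin_of_tendsto_nhds_of_eventually_within
      · exact (Complex.continuous_ofReal.tendsto x0).mono_left nhdsWithin_le_nhds
      · filter_upwards [self_mem_nhdsWithin] with x hx
        simpa using hx
    apply ht.frequently
    apply Eventually.frequently
    have hmem : ∀ᶠ x : ℝ in 𝓝 x0, (x : ℂ) ∈ S :=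
      Complex.continuous_ofReal.continuousAt.eventually (hS.mem_nhds hx0)
    exact (hmem.filter_mono nhdsWithin_le_nhds).mono fun x hx => hz x hx
  intro z hzS
  exact han.eqOn_zero_of_preconnected_of_frequently_eq_zero hc.isPreconnected hx0 hfr hzS

lemma isOpen_strip (ρ : ℝ) : IsOpen {z : ℂ | |z.im| < ρ} :=
  isOpen_lt (continuous_abs.comp Complex.continuous_im) continuous_const

lemma convex_strip (ρ : ℝ) : Convex ℝ {z : ℂ | |z.im| < ρ} := by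
  have : {z : ℂ | |z.im| < ρ} = Complex.imLm ⁻¹' (Metric.ball 0 ρ) := by
    ext z; simp [Complex.imLm]
  rw [this]
  exact (convex_ball 0 ρ).linear_preimage _

/-- the window in the second variable -/
def Win (ρ : ℝ) : Set ℂ := {w | 1/16 < w.re ∧ w.re < 47/16 ∧ |w.im| < ρ}

lemma isOpen_Win (ρ : ℝ) : IsOpen (Win ρ) := by
  have h1 : IsOpen {w : ℂ | (1:ℝ)/16 < w.re} := isOpen_lt continuous_const Complex.continuous_re
  have h2 : IsOpen {w : ℂ | w.re < (47:ℝ)/16} := isOpen_lt Complex.continuous_re continuous_const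
  exact h1.inter (h2.inter (isOpen_strip ρ))

lemma convex_Win (ρ : ℝ) : Convex ℝ (Win ρ) := by
  have h1 : Convex ℝ {w : ℂ | (1:ℝ)/16 < w.re} := by
    have : {w : ℂ | (1:ℝ)/16 < w.re} = Complex.reLm ⁻¹' (Set.Ioi (1/16)) := by
      ext z; simp [Complex.reLm]
    rw [this]; exact (convex_Ioi _).linear_preimage _
  have h2 : Convex ℝ {w : ℂ | w.re < (47:ℝ)/16} := by
    have : {w : ℂ | w.re < (47:ℝ)/16} = Complex.reLm ⁻¹' (Set.Iio (47/16)) := by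
      ext z; simp [Complex.reLm]
    rw [this]; exact (convex_Iio _).linear_preimage _
  exact h1.inter (h2.inter (convex_strip ρ))

lemma mem_WG {ρ : ℝ} {p : ℂ × ℂ} : p ∈ WG ρ ↔ |p.1.im| < ρ ∧ p.2 ∈ Win ρ := Iff.rfl

lemma isOpen_WG (ρ : ℝ) : IsOpen (WG ρ) := by
  have : WG ρ = {z : ℂ | |z.im| < ρ} ×ˢ Win ρ := by
    ext p; simp [mem_WG, Set.mem_prod]
  rw [this]
  exact (isOpen_strip ρ).prod (isOpen_Win ρ)

lemma real_mem_WG {ρ x y : ℝ} (hρ : 0 < ρ) (h1 : 1/16 < y) (h2 : y < 47/16) :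
    ((x : ℂ), (y : ℂ)) ∈ WG ρ := by
  refine ⟨?_, ?_, ?_, ?_⟩ <;> simp [hρ, h2]
  simpa using h1

/-- identity theorem on the window for separately holomorphic functions -/
lemma ident2 {f : ℂ × ℂ → ℂ} {ρ : ℝ} (hρ : 0 < ρ)
    (h1 : ∀ p ∈ WG ρ, DifferentiableAt ℂ (fun z => f (z, p.2)) p.1)
    (h2 : ∀ p ∈ WG ρ, DifferentiableAt ℂ (fun z => f (p.1, z)) p.2)
    (hz : ∀ x y : ℝ, 1/16 < y → y < 47/16 → f ((x:ℂ), (y:ℂ)) = 0) :
    ∀ p ∈ WG ρ, f p = 0 := by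
  have key : ∀ z : ℂ, |z.im| < ρ → ∀ y : ℝ, 1/16 < y → y < 47/16 → f (z, (y : ℂ)) = 0 := by
    intro z hzS y hy1 hy2
    refine ident1 (h := fun z => f (z, (y:ℂ))) (isOpen_strip ρ) (convex_strip ρ) ?_ 0 ?_ ?_ z hzS
    · intro w hw
      refine (h1 (w, (y:ℂ)) ⟨hw, ?_, ?_, ?_⟩).differentiableWithinAt
      · simpa using hy1
      · simpa using hy2
      · simpa using hρ
    · simpa using hρ
    · intro x _
      exact hz x y hy1 hy2
  intro p hp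
  obtain ⟨z, w⟩ := p
  have hp' := mem_WG.1 hp
  refine ident1 (h := fun w => f (z, w)) (isOpen_Win ρ) (convex_Win ρ) ?_ 1 ?_ ?_ w hp'.2
  · intro w' hw'
    exact (h2 (z, w') ⟨hp'.1, hw'⟩).differentiableWithinAt
  · refine ⟨?_, ?_, ?_⟩ <;> simp [hρ] <;> norm_num
  · intro y hy
    refine key z hp'.1 y ?_ ?_
    · simpa using hy.1
    · simpa using hy.2.1

lemma diffAt_fst {f : ℂ × ℂ → ℂ} {U : Set (ℂ × ℂ)} (hU : IsOpen U) (hf : DifferentiableOn ℂ f U)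
    {p : ℂ × ℂ} (hp : p ∈ U) : DifferentiableAt ℂ (fun z => f (z, p.2)) p.1 := by
  have h1 : DifferentiableAt ℂ f (p.1, p.2) := (hf p hp).differentiableAt (hU.mem_nhds hp)
  exact h1.comp p.1 (differentiableAt_id.prodMk (differentiableAt_const _))

lemma diffAt_snd {f : ℂ × ℂ → ℂ} {U : Set (ℂ × ℂ)} (hU : IsOpen U) (hf : DifferentiableOn ℂ f U)
    {p : ℂ × ℂ} (hp : p ∈ U) : DifferentiableAt ℂ (fun z => f (p.1, z)) p.2 := by
  have h1 : DifferentiableAt ℂ f (p.1, p.2) := (hf p hp).differentiableAt (hU.mem_nhds hp)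
  exact h1.comp p.2 ((differentiableAt_const _).prodMk differentiableAt_id)

lemma cj_mem_WG {ρ : ℝ} {p : ℂ × ℂ} (hp : p ∈ WG ρ) : (cj p.1, cj p.2) ∈ WG ρ := by
  obtain ⟨h1, h2, h3, h4⟩ := hp
  refine ⟨?_, ?_, ?_, ?_⟩
  · simpa using h1
  · simpa using h2
  · simpa using h3
  · simpa using h4

theorem gSym : GSym := by
  intro f ρ hρ hf hre p hp
  have hz := ident2 (f := fun p => f p - cj (f (cj p.1, cj p.2))) hρ ?_ ?_ ?_ p hp
  · have h0 : f p = cj (f (cj p.1, cj p.2)) := sub_eq_zero.1 hz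
    rw [h0]; simp
  · intro q hq
    have ha := diffAt_fst (isOpen_WG ρ) hf hq
    have hb := diffAt_fst (isOpen_WG ρ) hf (cj_mem_WG hq)
    have hc : DifferentiableAt ℂ ((starRingEnd ℂ) ∘ (fun z => f (z, cj q.2)) ∘ (starRingEnd ℂ)) q.1 := by
      have := hb.conj_conj
      simpa using this
    exact ha.sub hc
  · intro q hq
    have ha := diffAt_snd (isOpen_WG ρ) hf hq
    have hb := diffAt_snd (isOpen_WG ρ) hf (cj_mem_WG hq)
    have hc : DifferentiableAt ℂ ((starRingEnd ℂ) ∘ (fun z => f (cj q.1, z)) ∘ (starRingEnd ℂ)) q.2 := by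
      have := hb.conj_conj
      simpa using this
    exact ha.sub hc
  · intro x y h1 h2
    have := hre x y h1 h2
    have h3 : cj (f ((x:ℂ), (y:ℂ))) = f ((x:ℂ), (y:ℂ)) := Complex.conj_eq_iff_im.2 this
    simp only [cj, Complex.conj_ofReal] at h3 ⊢
    rw [h3, sub_self]

/-- reality of a holomorphic, conjugation symmetric function at real points -/
lemma im_zero {f : ℂ × ℂ → ℂ} {ρ : ℝ} (hρ : 0 < ρ) (hf : Hol f (WG ρ)) (x y : ℝ)
    (h1 : 1/16 < y) (h2 : y < 47/16) : (f ((x:ℂ), (y:ℂ))).im = 0 := by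
  have := hf.sym _ (real_mem_WG (x := x) hρ h1 h2)
  simp only [cj, Complex.conj_ofReal] at this
  exact Complex.conj_eq_iff_im.1 this.symm

lemma im_of_hasDerivAt {h : ℂ → ℂ} {h' : ℂ} {x : ℝ} (hd : HasDerivAt h h' (x : ℂ))
    (hr : ∀ᶠ t : ℝ in 𝓝 x, (h t).im = 0) : h'.im = 0 := by
  have h1 : HasDerivAt (fun t : ℝ => h t) h' x := hd.comp_ofReal
  have h2 : HasDerivAt (fun t : ℝ => (h t).im) h'.im x := by
    exact Complex.imCLM.hasFDerivAt.comp_hasDerivAt x h1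
  have h3 : HasDerivAt (fun t : ℝ => (h t).im) 0 x :=
    (hasDerivAt_const x (0:ℝ)).congr_of_eventuallyEq (hr.mono fun t ht => ht)
  exact h2.unique h3

lemma D1_im {f : ℂ × ℂ → ℂ} {ρ : ℝ} (hρ : 0 < ρ) (hf : Hol f (WG ρ)) (x y : ℝ)
    (h1 : 1/16 < y) (h2 : y < 47/16) : (D1 f ((x:ℂ), (y:ℂ))).im = 0 := by
  have hm := real_mem_WG (x := x) hρ h1 h2
  have hd := (diffAt_fst (isOpen_WG ρ) hf.diff hm).hasDerivAt
  exact im_of_hasDerivAt hd (Eventually.of_forall fun t => im_zero hρ hf t y h1 h2)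

lemma D2_im {f : ℂ × ℂ → ℂ} {ρ : ℝ} (hρ : 0 < ρ) (hf : Hol f (WG ρ)) (x y : ℝ)
    (h1 : 1/16 < y) (h2 : y < 47/16) : (D2 f ((x:ℂ), (y:ℂ))).im = 0 := by
  have hm := real_mem_WG (x := x) hρ h1 h2
  have hd := (diffAt_snd (isOpen_WG ρ) hf.diff hm).hasDerivAt
  refine im_of_hasDerivAt hd ?_
  filter_upwards [Ioo_mem_nhds h1 h2] with t ht
  exact im_zero hρ hf x t ht.1 ht.2

lemma re_hasFDerivAt (hD : GD12) {f : ℂ × ℂ → ℂ} {ρ : ℝ} (hρ : 0 < ρ) (hf : Hol f (WG ρ)) (x y : ℝ)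
    (h1 : 1/16 < y) (h2 : y < 47/16) :
    HasFDerivAt (fun q : ℝ × ℝ => (f ((q.1 : ℂ), (q.2 : ℂ))).re)
      ((D1 f ((x:ℂ), (y:ℂ))).re • ContinuousLinearMap.fst ℝ ℝ ℝ +
        (D2 f ((x:ℂ), (y:ℂ))).re • ContinuousLinearMap.snd ℝ ℝ ℝ) (x, y) := by
  have hm := real_mem_WG (x := x) hρ h1 h2
  have h0 := (hD f (WG ρ) (isOpen_WG ρ) hf.diff).2.2.2 _ hm
  have h3 : HasFDerivAt (𝕜 := ℝ) f _ ((x:ℂ), (y:ℂ)) := h0.restrictScalars ℝ
  have h4 : HasFDerivAt (fun q : ℝ × ℝ => ((q.1 : ℂ), (q.2 : ℂ)))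
      (Complex.ofRealCLM.prodMap Complex.ofRealCLM) (x, y) :=
    (Complex.ofRealCLM.prodMap Complex.ofRealCLM).hasFDerivAt
  have h5 := (Complex.reCLM.hasFDerivAt.comp (x, y) (h3.comp (x, y) h4))
  refine HasFDerivAt.congr_fderiv h5 ?_
  ext <;> simp

theorem gDetC (hD : GD12) : GDetC := by
  intro P Q ρ hρ hP hQ hdet
  have hPD := hD P (WG ρ) (isOpen_WG ρ) hP.diff
  have hQD := hD Q (WG ρ) (isOpen_WG ρ) hQ.diff
  have hdiff : DifferentiableOn ℂ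
      (fun p => (1 + D1 P p) * (1 + D2 Q p) - (1 + D2 P p) * D1 Q p - 1) (WG ρ) := by
    have a1 := hPD.1
    have a2 := hPD.2.1
    have a3 := hQD.1
    have a4 := hQD.2.1
    fun_prop
  intro p hp
  have hz := ident2 (f := fun p => (1 + D1 P p) * (1 + D2 Q p) - (1 + D2 P p) * D1 Q p - 1) hρ
    (fun q hq => diffAt_fst (isOpen_WG ρ) hdiff hq) (fun q hq => diffAt_snd (isOpen_WG ρ) hdiff hq)
    ?_ p hp
  · exact sub_eq_zero.1 hz
  · intro x y h1 h2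
    have hd := hdet x y h1 h2
    have hM : HasFDerivAt (fun q : ℝ × ℝ => Gm P Q q.1 q.2)
        ((ContinuousLinearMap.fst ℝ ℝ ℝ + ContinuousLinearMap.snd ℝ ℝ ℝ +
          ((D1 P ((x:ℂ), (y:ℂ))).re • ContinuousLinearMap.fst ℝ ℝ ℝ +
          (D2 P ((x:ℂ), (y:ℂ))).re • ContinuousLinearMap.snd ℝ ℝ ℝ)).prod
          (ContinuousLinearMap.snd ℝ ℝ ℝ +
          ((D1 Q ((x:ℂ), (y:ℂ))).re • ContinuousLinearMap.fst ℝ ℝ ℝ +
          (D2 Q ((x:ℂ), (y:ℂ))).re • ContinuousLinearMap.snd ℝ ℝ ℝ))) (x, y) := by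
      have b1 := re_hasFDerivAt hD hρ hP x y h1 h2
      have b2 := re_hasFDerivAt hD hρ hQ x y h1 h2
      exact ((hasFDerivAt_fst.add hasFDerivAt_snd).add b1).prodMk (hasFDerivAt_snd.add b2)
    rw [hM.fderiv] at hd
    rw [← LinearMap.det_toMatrix (Module.Basis.finTwoProd ℝ), Matrix.det_fin_two] at hd
    simp [LinearMap.toMatrix_apply] at hd
    have e1 := D1_im hρ hP x y h1 h2
    have e2 := D2_im hρ hP x y h1 h2
    have e3 := D1_im hρ hQ x y h1 h2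
    have e4 := D2_im hρ hQ x y h1 h2
    apply Complex.ext
    · simp [e1, e2, e3, e4]
      linarith
    · simp [e1, e2, e3, e4]

end Helper4.TW
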